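import Pool.Agent.X249.TR.Basic

/-!
# Arrays: self-similarity of modular labellings
-/

namespace X249.TR

variable {Δ : Type}

theorem arr_add (p q : ℕ) (M : Δ → ℕ → ℕ → Δ) (hp : 0 < p) (hq : 0 < q) (r : ℕ) :
    ∀ (k : ℕ) (δ : Δ) (i j a b : ℕ), i < p ^ k → j < q ^ k → a < p ^ r → b < q ^ r →
      arr p q M (k + r) δ (p ^ r * i + a) (q ^ r * j + b) = arr p q M r (arr p q M k δ i j) a b
  | 0, δ, i, j, a, b, hi, hj, ha, hb => by
    have h1 : i = 0 := by simpa using hi
    have h2 : j = 0 := by simpa using hj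
    subst h1; subst h2
    simp [arr]
  | k + 1, δ, i, j, a, b, hi, hj, ha, hb => by
    have e : k + 1 + r = (k + r) + 1 := by ring
    have key : ∀ (p i a : ℕ), 0 < p → a < p ^ r → (p ^ r * i + a) / p ^ (k + r) = i / p ^ k ∧
        (p ^ r * i + a) % p ^ (k + r) = p ^ r * (i % p ^ k) + a := by
      intro p i a hp ha
      have h0 : 0 < p ^ r := Nat.pow_pos hp
      have hk : 0 < p ^ k := Nat.pow_pos hp
      have h1 : p ^ r * i + a = p ^ (k + r) * (i / p ^ k) + (p ^ r * (i % p ^ k) + a) := by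
        conv_lhs => rw [← Nat.div_add_mod i (p ^ k)]
        rw [pow_add]; ring
      have h2 : p ^ r * (i % p ^ k) + a < p ^ (k + r) := by
        have h3 : i % p ^ k + 1 ≤ p ^ k := Nat.mod_lt _ hk
        calc p ^ r * (i % p ^ k) + a < p ^ r * (i % p ^ k) + p ^ r := by omega
          _ = p ^ r * (i % p ^ k + 1) := by ring
          _ ≤ p ^ r * p ^ k := Nat.mul_le_mul_left _ h3
          _ = p ^ (k + r) := by rw [pow_add]; ring
      constructor
      · rw [h1, Nat.mul_add_div (Nat.pow_pos hp), Nat.div_eq_of_lt h2, add_zero]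
      · rw [h1, Nat.mul_add_mod, Nat.mod_eq_of_lt h2]
    rw [e]
    show arr p q M (k + r) (M δ ((p ^ r * i + a) / p ^ (k + r)) ((q ^ r * j + b) / q ^ (k + r)))
      ((p ^ r * i + a) % p ^ (k + r)) ((q ^ r * j + b) % q ^ (k + r)) = _
    rw [(key p i a hp ha).1, (key p i a hp ha).2, (key q j b hq hb).1, (key q j b hq hb).2]
    rw [arr_add p q M hp hq r k _ _ _ a b (Nat.mod_lt _ (Nat.pow_pos hp))
      (Nat.mod_lt _ (Nat.pow_pos hq)) ha hb]
    rfl

/-- The labelling of an automaton is self-similar. -/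
theorem Automaton.self_similar {S : Type} (A : Automaton S) (r u v a b : ℕ) (ha : a < A.p ^ r)
    (hb : b < A.q ^ r) : A.T (A.p ^ r * u + a) (A.q ^ r * v + b) =
      arr A.p A.q A.M r (A.T u v) a b := by
  obtain ⟨k1, h1⟩ := A.modular u v
  obtain ⟨k2, h2⟩ := A.modular (A.p ^ r * u + a) (A.q ^ r * v + b)
  obtain ⟨g1, g2, g3⟩ := h1 (k1 + k2) (by omega)
  obtain ⟨_, _, g4⟩ := h2 (k1 + k2 + r) (by omega)
  rw [g4, g3, arr_add _ _ _ (by have := A.two_le_p; omega) (by have := A.two_le_q; omega) r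
    _ _ _ _ _ _ g1 g2 ha hb]

/-- A self-similar labelling is modular. -/
theorem modular_of_self_similar (P Q : ℕ) (hP : 2 ≤ P) (hQ : 2 ≤ Q) (T : ℕ → ℕ → Δ)
    (M : Δ → ℕ → ℕ → Δ)
    (h : ∀ i j a b, a < P → b < Q → T (P * i + a) (Q * j + b) = M (T i j) a b) (i j : ℕ) :
    ∃ k₀ : ℕ, ∀ k, k₀ ≤ k → i < P ^ k ∧ j < Q ^ k ∧ T i j = arr P Q M k (T 0 0) i j := by
  have key : ∀ k u v i j, i < P ^ k → j < Q ^ k →
      T (P ^ k * u + i) (Q ^ k * v + j) = arr P Q M k (T u v) i j := by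
    intro k
    induction k with
    | zero =>
      intro u v i j hi hj
      have h1 : i = 0 := by simpa using hi
      have h2 : j = 0 := by simpa using hj
      subst h1; subst h2
      simp [arr]
    | succ k ih =>
      intro u v i j hi hj
      show _ = arr P Q M k (M (T u v) (i / P ^ k) (j / Q ^ k)) (i % P ^ k) (j % Q ^ k)
      have e1 : P ^ (k + 1) * u + i = P ^ k * (P * u + i / P ^ k) + i % P ^ k := by
        conv_lhs => rw [← Nat.div_add_mod i (P ^ k)]
        ring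
      have e2 : Q ^ (k + 1) * v + j = Q ^ k * (Q * v + j / Q ^ k) + j % Q ^ k := by
        conv_lhs => rw [← Nat.div_add_mod j (Q ^ k)]
        ring
      have hP0 : 0 < P ^ k := Nat.pow_pos (by omega)
      have hQ0 : 0 < Q ^ k := Nat.pow_pos (by omega)
      rw [e1, e2, ih _ _ _ _ (Nat.mod_lt _ hP0) (Nat.mod_lt _ hQ0), h]
      · rw [Nat.div_lt_iff_lt_mul hP0]
        calc i < P ^ (k + 1) := hi
          _ = P * P ^ k := by ring
      · rw [Nat.div_lt_iff_lt_mul hQ0]
        calc j < Q ^ (k + 1) := hj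
          _ = Q * Q ^ k := by ring
  refine ⟨i + j, fun k hk => ?_⟩
  have h1 : i < P ^ k := lt_of_lt_of_le (Nat.lt_pow_self (by omega : 1 < P))
    (Nat.pow_le_pow_right (by omega) (by omega : i ≤ k))
  have h2 : j < Q ^ k := lt_of_lt_of_le (Nat.lt_pow_self (by omega : 1 < Q))
    (Nat.pow_le_pow_right (by omega) (by omega : j ≤ k))
  refine ⟨h1, h2, ?_⟩
  have := key k 0 0 i j h1 h2
  simpa using this

end X249.TR
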