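import Mathlib

/-!
# Modular real-time trellis automata
-/

namespace X249.TR

/-- The arrays generated from the arrays `M δ` (of size `p × q`): `arr p q M k δ` is the array
`M^k_δ` (of size `p ^ k × q ^ k`) for `k ≥ 1`, and the `1 × 1` array `δ` for `k = 0`.
`M^(k+1)_δ` arises from `M^1_δ` when every entry `δ_(a,b)` is replaced by `M^k_(δ_(a,b))`, so its
entry at `(i, j)` is the entry at `(i % p ^ k, j % q ^ k)` of the block number
`(i / p ^ k, j / q ^ k)`. -/
def arr {Δ : Type} (p q : ℕ) (M : Δ → ℕ → ℕ → Δ) : ℕ → Δ → ℕ → ℕ → Δ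
  | 0, δ, _, _ => δ
  | k + 1, δ, i, j => arr p q M k (M δ (i / p ^ k) (j / q ^ k)) (i % p ^ k) (j % q ^ k)

/-- A modular real-time trellis automaton over the alphabet `S`. -/
structure Automaton (S : Type) where
  /-- the alphabet `Γ` -/
  Γ : Type
  finΓ : Finite Γ
  /-- the inclusion of the input alphabet in `Γ` -/
  emb : S → Γ
  emb_inj : Function.Injective emb
  /-- the accepting symbols -/
  acc : Set Γ
  /-- the labels -/
  Δ : Type
  finΔ : Finite Δ
  /-- the labelling of the nodes -/
  T : ℕ → ℕ → Δ
  /-- the transition functions; `none` is the symbol `λ` -/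
  g : Δ → Option Γ → Option Γ → Γ
  p : ℕ
  q : ℕ
  two_le_p : 2 ≤ p
  two_le_q : 2 ≤ q
  /-- the start label -/
  δ₀ : Δ
  /-- the arrays `M^1_δ` (only the entries `(a, b)` with `a < p`, `b < q` matter) -/
  M : Δ → ℕ → ℕ → Δ
  start : M δ₀ 0 0 = δ₀
  /-- `T (i, j)` is the `(i, j)` entry of `M^k_(δ₀)` for all large `k` -/
  modular : ∀ i j : ℕ, ∃ k₀ : ℕ, ∀ k, k₀ ≤ k → i < p ^ k ∧ j < q ^ k ∧
    T i j = arr p q M k δ₀ i j

namespace Automaton

variable {S : Type}

/-- The output of the node `(i, j)` on the input word `w` (for `i + j < w.length`): a node of level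
`w.length - 1` gets `λ` and the letter number `i + 1` of `w` (whose index in the list is `i`), and a
node of a smaller level gets the outputs of its left input `(i, j + 1)` and of its right input
`(i + 1, j)`. -/
def val (A : Automaton S) (w : List S) (i j : ℕ) : A.Γ :=
  if i + j + 1 < w.length then
    A.g (A.T i j) (some (A.val w i (j + 1))) (some (A.val w (i + 1) j))
  else A.g (A.T i j) none ((w[i]?).map A.emb)
termination_by w.length - (i + j)

/-- The language accepted by the automaton. -/
def language (A : Automaton S) : Set (List S) := {w | w ≠ [] ∧ A.val w 0 0 ∈ A.acc}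

/-- The number of types of processors: the number of distinct functions among the `g δ`. -/
noncomputable def types (A : Automaton S) : ℕ := (Set.range A.g).ncard

end Automaton

end X249.TR
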