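import Pool.Agent.X249.TR.Arr

/-!
# A self-synchronising block code for modular labellings
-/

namespace X249.TR

section Mod

theorem ex_up (P i : ℕ) (hP : 0 < P) : ∃ x, x < P ∧ P ∣ i + x := by
  by_cases h : i % P = 0
  · exact ⟨0, hP, by simpa using Nat.dvd_of_mod_eq_zero h⟩
  · refine ⟨P - i % P, by omega, ?_⟩
    have h1 : i % P < P := Nat.mod_lt _ hP
    have : i + (P - i % P) = P * (i / P + 1) := by
      have := Nat.div_add_mod i P
      rw [Nat.mul_add]; omega
    rw [this]; exact Dvd.intro _ rfl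

/-- the distance from `i` to the next multiple of `P` -/
noncomputable def up (P i : ℕ) : ℕ :=
  if h : 0 < P then (ex_up P i h).choose else 0

theorem up_spec {P : ℕ} (hP : 0 < P) (i : ℕ) : up P i < P ∧ P ∣ i + up P i := by
  unfold up
  rw [dif_pos hP]
  exact (ex_up P i hP).choose_spec

theorem up_unique {P i x y : ℕ} (hx : x < P) (hy : y < P) (h1 : P ∣ i + x) (h2 : P ∣ i + y) :
    x = y := by
  rcases lt_trichotomy x y with h | h | h
  · exfalso
    have h3 : P ∣ y - x := by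
      have := Nat.dvd_sub h2 h1
      rwa [show i + y - (i + x) = y - x by omega] at this
    have := Nat.le_of_dvd (by omega) h3
    omega
  · exact h
  · exfalso
    have h3 : P ∣ x - y := by
      have := Nat.dvd_sub h1 h2
      rwa [show i + x - (i + y) = x - y by omega] at this
    have := Nat.le_of_dvd (by omega) h3
    omega

theorem up_zero {P i : ℕ} (hP : 0 < P) (h : P ∣ i) : up P i = 0 :=
  up_unique (up_spec hP i).1 hP (up_spec hP i).2 (by simpa using h)

theorem up_succ {P i : ℕ} (hP : 0 < P) (h : ¬ P ∣ i) : i + 1 + up P (i + 1) = i + up P i := by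
  obtain ⟨h1, h2⟩ := up_spec hP i
  obtain ⟨h3, h4⟩ := up_spec hP (i + 1)
  have h0 : up P i ≠ 0 := by
    intro e
    rw [e] at h2
    exact h (by simpa using h2)
  have : up P (i + 1) = up P i - 1 := by
    apply up_unique (i := i + 1) h3 (by omega) h4
    rwa [show i + 1 + (up P i - 1) = i + up P i by omega]
  omega

theorem up_succ' {P i : ℕ} (hP : 0 < P) (h : P ∣ i) : i + 1 + up P (i + 1) = i + P := by
  obtain ⟨h3, h4⟩ := up_spec hP (i + 1)
  have : up P (i + 1) = P - 1 := by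
    apply up_unique (i := i + 1) h3 (by omega) h4
    rw [show i + 1 + (P - 1) = i + P by omega]
    exact Dvd.dvd.add h (dvd_refl P)
  omega

theorem up_congr {P i i' : ℕ} (hP : 0 < P) (h : ∀ x, x < P → (P ∣ i + x ↔ P ∣ i' + x)) :
    up P i = up P i' :=
  up_unique (i := i') ((up_spec hP i).1) (up_spec hP i').1
    ((h _ (up_spec hP i).1).1 (up_spec hP i).2) (up_spec hP i').2

end Mod

variable {Δ : Type} (T : ℕ → ℕ → Δ) (P Q : ℕ)

/-- the labels in a `2 × 2` window -/
def win (u v : ℕ) : Fin 2 → Fin 2 → Δ := fun c d => T (u + c) (v + d)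

variable (c : (Fin 2 → Fin 2 → Δ) → ℕ)

/-- a bit of the block code -/
def bitOf (t : Fin 2 → Fin 2 → Δ) (x y : ℕ) : Bool :=
  decide (x = 0 ∨ y = 0 ∨ (y = 2 ∧ x = 2 * (c t + 1)))

/-- The block code of the labelling `T`: the bits of a block have markers in the first row and in
the first column, and code the labels of a `2 × 2` window of blocks. -/
def bit (i j : ℕ) : Bool := bitOf c (win T (i / P) (j / Q)) (i % P) (j % Q)

variable {T P Q c}
variable {s : ℕ} (hc : ∀ t, c t < s) (hP : 2 * s + 6 ≤ P) (hQ : 2 * s + 6 ≤ Q)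

theorem bit_iff (i j : ℕ) : bit T P Q c i j = true ↔
    (P ∣ i ∨ Q ∣ j ∨ (j % Q = 2 ∧ i % P = 2 * (c (win T (i / P) (j / Q)) + 1))) := by
  unfold bit bitOf
  rw [decide_eq_true_iff, Nat.dvd_iff_mod_eq_zero, Nat.dvd_iff_mod_eq_zero]

theorem mod_succ (P i : ℕ) (hP : 2 ≤ P) : (i + 1) % P = if i % P + 1 = P then 0 else i % P + 1 := by
  have h1 : i % P < P := Nat.mod_lt _ (by omega)
  rw [Nat.add_mod, Nat.mod_eq_of_lt (by omega : 1 < P)]
  split_ifs with h
  · rw [h, Nat.mod_self]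
  · exact Nat.mod_eq_of_lt (by omega)

include hc hP hQ

theorem mark_left (i j : ℕ) :
    P ∣ i ↔ bit T P Q c i j = true ∧ bit T P Q c i (j + 1) = true := by
  constructor
  · intro h
    exact ⟨(bit_iff _ _).2 (Or.inl h), (bit_iff _ _).2 (Or.inl h)⟩
  · rintro ⟨h1, h2⟩
    rw [bit_iff] at h1 h2
    by_contra hn
    have e := mod_succ Q j (by omega)
    have hlt : j % Q < Q := Nat.mod_lt _ (by omega)
    have h1' : j % Q = 0 ∨ j % Q = 2 := by
      rw [← Nat.dvd_iff_mod_eq_zero]; tauto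
    have h2' : (j + 1) % Q = 0 ∨ (j + 1) % Q = 2 := by
      rw [← Nat.dvd_iff_mod_eq_zero]; tauto
    rw [e] at h2'
    by_cases hh : j % Q + 1 = Q
    · omega
    · rw [if_neg hh] at h2'
      omega

theorem mark_right (i j : ℕ) :
    Q ∣ j ↔ bit T P Q c i j = true ∧ bit T P Q c (i + 1) j = true := by
  constructor
  · intro h
    exact ⟨(bit_iff _ _).2 (Or.inr (Or.inl h)), (bit_iff _ _).2 (Or.inr (Or.inl h))⟩
  · rintro ⟨h1, h2⟩
    rw [bit_iff] at h1 h2
    by_contra hn
    have e := mod_succ P i (by omega)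
    have hlt : i % P < P := Nat.mod_lt _ (by omega)
    have b1 := hc (win T (i / P) (j / Q))
    have b2 := hc (win T ((i + 1) / P) (j / Q))
    have h1' : i % P = 0 ∨ i % P = 2 * (c (win T (i / P) (j / Q)) + 1) := by
      rw [← Nat.dvd_iff_mod_eq_zero]; tauto
    have h2' : (i + 1) % P = 0 ∨ (i + 1) % P = 2 * (c (win T ((i + 1) / P) (j / Q)) + 1) := by
      rw [← Nat.dvd_iff_mod_eq_zero]; tauto
    rw [e] at h2'
    by_cases hh : i % P + 1 = P
    · omega
    · rw [if_neg hh] at h2'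
      omega

omit hc in
theorem data_bit (u v k : ℕ) (hk : k < s) :
    bit T P Q c (P * u + 2 * (k + 1)) (Q * v + 2) = true ↔ c (win T u v) = k := by
  have e1 : (P * u + 2 * (k + 1)) / P = u := by
    rw [Nat.mul_add_div (by omega), Nat.div_eq_of_lt (by omega)]; rfl
  have e2 : (P * u + 2 * (k + 1)) % P = 2 * (k + 1) := by
    rw [Nat.mul_add_mod, Nat.mod_eq_of_lt (by omega)]
  have e3 : (Q * v + 2) / Q = v := by
    rw [Nat.mul_add_div (by omega), Nat.div_eq_of_lt (by omega)]; rfl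
  have e4 : (Q * v + 2) % Q = 2 := by
    rw [Nat.mul_add_mod, Nat.mod_eq_of_lt (by omega)]
  rw [bit_iff, Nat.dvd_iff_mod_eq_zero, Nat.dvd_iff_mod_eq_zero, e1, e2, e3, e4]
  omega

section Decode

variable {i j i' j' K : ℕ}
  (hW : ∀ x y, x + y ≤ K → bit T P Q c (i + x) (j + y) = bit T P Q c (i' + x) (j' + y))

include hW

theorem up_left (hK : P ≤ K) : up P i = up P i' := by
  apply up_congr (by omega)
  intro x hx
  rw [mark_left hc hP hQ (i + x) j, mark_left hc hP hQ (i' + x) j']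
  have h1 := hW x 0 (by omega)
  have h2 := hW x 1 (by omega)
  simp only [add_zero] at h1
  rw [h1, h2]

theorem up_right (hK : Q ≤ K) : up Q j = up Q j' := by
  apply up_congr (by omega)
  intro x hx
  rw [mark_right hc hP hQ i (j + x), mark_right hc hP hQ i' (j' + x)]
  have h1 := hW 0 x (by omega)
  have h2 := hW 1 x (by omega)
  simp only [add_zero] at h1
  rw [h1, h2]

theorem win_eq (hinj : Function.Injective c) {α γ U V U' V' : ℕ} (h1 : i + α = P * U)
    (h1' : i' + α = P * U')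
    (h2 : j + γ = Q * V) (h2' : j' + γ = Q * V') (a b : ℕ)
    (hab : α + P * a + γ + Q * b + (2 * s + 2) ≤ K) :
    win T (U + a) (V + b) = win T (U' + a) (V' + b) := by
  apply hinj
  set k := c (win T (U + a) (V + b)) with hk
  have hks : k < s := hc _
  symm
  rw [← data_bit hP hQ (U' + a) (V' + b) k hks]
  have h3 : bit T P Q c (P * (U + a) + 2 * (k + 1)) (Q * (V + b) + 2) = true :=
    (data_bit hP hQ (U + a) (V + b) k hks).2 hk.symm
  have h4 := hW (α + P * a + 2 * (k + 1)) (γ + Q * b + 2) (by omega)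
  have e1 : i + (α + P * a + 2 * (k + 1)) = P * (U + a) + 2 * (k + 1) := by
    rw [Nat.mul_add P U a, ← h1]; ring
  have e2 : j + (γ + Q * b + 2) = Q * (V + b) + 2 := by
    rw [Nat.mul_add Q V b, ← h2]; ring
  have e3 : i' + (α + P * a + 2 * (k + 1)) = P * (U' + a) + 2 * (k + 1) := by
    rw [Nat.mul_add P U' a, ← h1']; ring
  have e4 : j' + (γ + Q * b + 2) = Q * (V' + b) + 2 := by
    rw [Nat.mul_add Q V' b, ← h2']; ring
  rw [e1, e2, e3, e4] at h4
  rw [← h4]; exact h3

theorem decode (hinj : Function.Injective c) {R : Δ → ℕ → ℕ → Δ}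
    (hT : ∀ u v a b, a < P → b < Q → T (P * u + a) (Q * v + b) = R (T u v) a b)
    {α γ U V U' V' : ℕ} (hα : α < P) (hγ : γ < Q) (hK : 2 * (P + Q) ≤ K)
    (h1 : i + α = P * U) (h1' : i' + α = P * U')
    (h2 : j + γ = Q * V) (h2' : j' + γ = Q * V') (a b : ℕ) (hab : α + a + γ + b ≤ K) :
    T (P * U + a) (Q * V + b) = T (P * U' + a) (Q * V' + b) := by
  have hP0 : 0 < P := by omega
  have hQ0 : 0 < Q := by omega
  obtain ⟨a1, a0, ha0, rfl⟩ : ∃ a1 a0, a0 < P ∧ a = P * a1 + a0 :=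
    ⟨a / P, a % P, Nat.mod_lt _ hP0, (Nat.div_add_mod a P).symm⟩
  obtain ⟨b1, b0, hb0, rfl⟩ : ∃ b1 b0, b0 < Q ∧ b = Q * b1 + b0 :=
    ⟨b / Q, b % Q, Nat.mod_lt _ hQ0, (Nat.div_add_mod b Q).symm⟩
  have e : ∀ (P U a1 a0 : ℕ), P * U + (P * a1 + a0) = P * (U + a1) + a0 := by
    intro P U a1 a0; ring
  rw [e, e, e, e, hT _ _ _ _ ha0 hb0, hT _ _ _ _ ha0 hb0]
  suffices h : T (U + a1) (V + b1) = T (U' + a1) (V' + b1) by rw [h]
  rcases Nat.eq_zero_or_pos a1 with ha1 | ha1
  · subst ha1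
    rcases Nat.eq_zero_or_pos b1 with hb1 | hb1
    · subst hb1
      have := win_eq hc hP hQ hW hinj h1 h1' h2 h2' 0 0 (by omega)
      have := congrFun (congrFun this 0) 0
      simpa [win] using this
    · obtain ⟨b2, rfl⟩ : ∃ b2, b1 = b2 + 1 := ⟨b1 - 1, by omega⟩
      have := win_eq hc hP hQ hW hinj h1 h1' h2 h2' 0 b2 (by
        have : Q * (b2 + 1) = Q * b2 + Q := by ring
        omega)
      have := congrFun (congrFun this 0) 1
      simpa [win, add_assoc] using this
  · obtain ⟨a2, rfl⟩ : ∃ a2, a1 = a2 + 1 := ⟨a1 - 1, by omega⟩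
    have := win_eq hc hP hQ hW hinj h1 h1' h2 h2' a2 b1 (by
      have : P * (a2 + 1) = P * a2 + P := by ring
      omega)
    have := congrFun (congrFun this 1) 0
    simpa [win, add_assoc] using this

end Decode

end X249.TR
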