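import Pool.Agent.X249.TR.Main

/-!
# The automaton with two types of processors
-/

namespace X249.TR

variable {S : Type} (A : Automaton S) (P Q : ℕ) (c : (Fin 2 → Fin 2 → A.Δ) → ℕ)

/-- one step of the new automaton -/
def Step (β : Bool) (l r : Option (S ⊕ Info S A.Γ P Q)) (o : Info S A.Γ P Q) : Prop :=
  ∃ (w : List S) (i j : ℕ), bit A.T P Q c i j = β ∧ o = info A P Q c w i j ∧
    ((i + j + 1 = w.length ∧ l = none ∧ r = (w[i]?).map Sum.inl) ∨
     (i + j + 1 < w.length ∧ l = some (Sum.inr (info A P Q c w i (j + 1))) ∧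
       r = some (Sum.inr (info A P Q c w (i + 1) j))))

/-- the labels of the new automaton: the labels in a window, and the position in the block -/
abbrev Lab (Δ : Type) (P Q : ℕ) : Type := (Fin 2 → Fin 2 → Δ) × Fin P × Fin Q

open Classical in
/-- the transition function of the new automaton -/
noncomputable def gB (β : Bool) (l r : Option (S ⊕ Info S A.Γ P Q)) : S ⊕ Info S A.Γ P Q :=
  if h : ∃ o, Step A P Q c β l r o then Sum.inr h.choose
  else Sum.inr (info A P Q c [] 0 0)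

variable {P Q c} {s : ℕ} (hc : ∀ t, c t < s) (hP : 2 * s + 6 ≤ P) (hQ : 2 * s + 6 ≤ Q)
  (hinj : Function.Injective c) {R : A.Δ → ℕ → ℕ → A.Δ}
  (hT : ∀ u v a b, a < P → b < Q → A.T (P * u + a) (Q * v + b) = R (A.T u v) a b)

section

include hc hP hQ hinj hT

theorem step_unique {β : Bool} {l r : Option (S ⊕ Info S A.Γ P Q)} {o o' : Info S A.Γ P Q}
    (h : Step A P Q c β l r o) (h' : Step A P Q c β l r o') : o = o' := by
  obtain ⟨w, i, j, h1, rfl, h2⟩ := h
  obtain ⟨w', i', j', h1', rfl, h2'⟩ := h'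
  rw [info_eq_iff]
  rcases h2 with ⟨a1, a2, a3⟩ | ⟨a1, a2, a3⟩
  · rcases h2' with ⟨b1, b2, b3⟩ | ⟨b1, b2, b3⟩
    · apply rel_top A a1 b1 (h1.trans h1'.symm)
      rw [a3] at b3
      exact Option.map_injective Sum.inl_injective b3
    · rw [a2] at b2; simp at b2
  · rcases h2' with ⟨b1, b2, b3⟩ | ⟨b1, b2, b3⟩
    · rw [a2] at b2; simp at b2
    · apply rel_step A hc hP hQ hinj hT a1 b1 (h1.trans h1'.symm)
      · rw [← info_eq_iff]
        rw [a2] at b2
        exact Sum.inr_injective (Option.some.inj b2)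
      · rw [← info_eq_iff]
        rw [a3] at b3
        exact Sum.inr_injective (Option.some.inj b3)

theorem gB_eq {β : Bool} {l r : Option (S ⊕ Info S A.Γ P Q)} {o : Info S A.Γ P Q}
    (h : Step A P Q c β l r o) : gB A P Q c β l r = Sum.inr o := by
  unfold gB
  have h0 : ∃ o, Step A P Q c β l r o := ⟨o, h⟩
  rw [dif_pos h0, step_unique A hc hP hQ hinj hT h0.choose_spec h]

end

theorem finite_info [Finite S] [Finite A.Γ] : Finite (Info S A.Γ P Q) := by
  infer_instance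

/-- the labelling of the new automaton -/
def labT (T : ℕ → ℕ → A.Δ) (hP0 : 0 < P) (hQ0 : 0 < Q) (i j : ℕ) : Lab A.Δ P Q :=
  (win T (i / P) (j / Q), ⟨i % P, Nat.mod_lt _ hP0⟩, ⟨j % Q, Nat.mod_lt _ hQ0⟩)

/-- the arrays of the new automaton -/
def labM (R : A.Δ → ℕ → ℕ → A.Δ) (hP0 : 0 < P) (hQ0 : 0 < Q) (δ : Lab A.Δ P Q) (a b : ℕ) :
    Lab A.Δ P Q :=
  (fun e f => R (δ.1 (if (δ.2.1 : ℕ) + e < P then 0 else 1) (if (δ.2.2 : ℕ) + f < Q then 0 else 1))
      (((δ.2.1 : ℕ) + e) % P) (((δ.2.2 : ℕ) + f) % Q),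
    ⟨a % P, Nat.mod_lt _ hP0⟩, ⟨b % Q, Nat.mod_lt _ hQ0⟩)

include hT in
theorem labT_self_similar (hP0 : 0 < P) (hQ0 : 0 < Q) (i j a b : ℕ) (ha : a < P) (hb : b < Q) :
    labT A A.T hP0 hQ0 (P * i + a) (Q * j + b) =
      labM A R hP0 hQ0 (labT A A.T hP0 hQ0 i j) a b := by
  unfold labT labM
  have e1 : (P * i + a) / P = i := by
    rw [Nat.mul_add_div hP0, Nat.div_eq_of_lt ha]; rfl
  have e2 : (P * i + a) % P = a % P := by rw [Nat.mul_add_mod]
  have e3 : (Q * j + b) / Q = j := by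
    rw [Nat.mul_add_div hQ0, Nat.div_eq_of_lt hb]; rfl
  have e4 : (Q * j + b) % Q = b % Q := by rw [Nat.mul_add_mod]
  refine Prod.ext ?_ (Prod.ext ?_ ?_)
  · funext e f
    simp only [win]
    rw [e1, e3]
    have key : ∀ (P i e : ℕ), 0 < P → e < 2 → ∃ a, a < P ∧ i + e =
        P * (i / P + (if i % P + e < P then 0 else 1)) + a ∧ (i % P + e) % P = a := by
      intro P i e hP he
      refine ⟨(i % P + e) % P, Nat.mod_lt _ hP, ?_, rfl⟩
      have h1 := Nat.div_add_mod i P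
      have h2 : i % P < P := Nat.mod_lt _ hP
      split_ifs with h
      · rw [Nat.mod_eq_of_lt h, add_zero]; omega
      · have h3 : (i % P + e) % P = i % P + e - P := by
          rw [Nat.mod_eq_sub_mod (by omega), Nat.mod_eq_of_lt (by omega)]
        rw [h3, Nat.mul_add]; omega
    obtain ⟨a1, ha1, g1, g2⟩ := key P i e hP0 e.2
    obtain ⟨b1, hb1, g3, g4⟩ := key Q j f hQ0 f.2
    rw [g1, g3, hT _ _ _ _ ha1 hb1, g2, g4]
    congr 1
    congr 1 <;> split_ifs <;> rfl
  · simp only [e2]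
  · simp only [e4]

/-- the new automaton -/
noncomputable def newAut [Finite S] (hP2 : 2 ≤ P) (hQ2 : 2 ≤ Q) : Automaton S where
  Γ := S ⊕ Info S A.Γ P Q
  finΓ := by
    have := A.finΓ
    infer_instance
  emb := Sum.inl
  emb_inj := Sum.inl_injective
  acc := {z | ∃ w, w ≠ [] ∧ A.val w 0 0 ∈ A.acc ∧ z = Sum.inr (info A P Q c w 0 0)}
  Δ := Lab A.Δ P Q
  finΔ := by
    have := A.finΔ
    infer_instance
  T := labT A A.T (Nat.lt_of_lt_of_le Nat.two_pos hP2) (Nat.lt_of_lt_of_le Nat.two_pos hQ2)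
  g := fun δ => gB A P Q c (bitOf c δ.1 δ.2.1 δ.2.2)
  p := P
  q := Q
  two_le_p := hP2
  two_le_q := hQ2
  δ₀ := labT A A.T (Nat.lt_of_lt_of_le Nat.two_pos hP2) (Nat.lt_of_lt_of_le Nat.two_pos hQ2) 0 0
  M := labM A R (Nat.lt_of_lt_of_le Nat.two_pos hP2) (Nat.lt_of_lt_of_le Nat.two_pos hQ2)
  start := by
    have := labT_self_similar A hT (Nat.lt_of_lt_of_le Nat.two_pos hP2) (Nat.lt_of_lt_of_le Nat.two_pos hQ2) 0 0 0 0
      (Nat.lt_of_lt_of_le Nat.two_pos hP2) (Nat.lt_of_lt_of_le Nat.two_pos hQ2)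
    simpa using this.symm
  modular := fun i j => modular_of_self_similar P Q hP2 hQ2 _ _
    (labT_self_similar A hT (Nat.lt_of_lt_of_le Nat.two_pos hP2) (Nat.lt_of_lt_of_le Nat.two_pos hQ2)) i j

include hc hP hQ hinj in
theorem newAut_val [Finite S] (hP2 : 2 ≤ P) (hQ2 : 2 ≤ Q) (w : List S) : ∀ (h i j : ℕ),
    i + j + h + 1 = w.length →
    (newAut A (c := c) hT hP2 hQ2).val w i j = Sum.inr (info A P Q c w i j)
  | 0, i, j, h1 => by
    rw [Automaton.val_top _ (by omega)]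
    apply gB_eq A hc hP hQ hinj hT
    exact ⟨w, i, j, rfl, rfl, Or.inl ⟨by omega, rfl, rfl⟩⟩
  | h + 1, i, j, h1 => by
    rw [Automaton.val_of_lt _ (by omega), newAut_val hP2 hQ2 w h i (j + 1) (by omega),
      newAut_val hP2 hQ2 w h (i + 1) j (by omega)]
    apply gB_eq A hc hP hQ hinj hT
    exact ⟨w, i, j, rfl, rfl, Or.inr ⟨by omega, rfl, rfl⟩⟩

/-- **Two types of processors are enough.** -/
theorem two_types (A : Automaton S) : ∃ B : Automaton S, B.language = A.language ∧ B.types ≤ 2 := by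
  classical
  have := A.finΓ
  have := A.finΔ
  have : Finite S := Finite.of_injective A.emb A.emb_inj
  have : Fintype (Fin 2 → Fin 2 → A.Δ) := Fintype.ofFinite _
  set s := Fintype.card (Fin 2 → Fin 2 → A.Δ) with hs
  let c : (Fin 2 → Fin 2 → A.Δ) → ℕ := fun t => Fintype.equivFin _ t
  have hc : ∀ t, c t < s := fun t => (Fintype.equivFin _ t).2
  have hinj : Function.Injective c := by
    intro t t' h
    exact (Fintype.equivFin _).injective (Fin.ext h)
  set r := 2 * s + 6 with hr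
  have hp := A.two_le_p
  have hq := A.two_le_q
  have hP : 2 * s + 6 ≤ A.p ^ r := by
    rw [← hr]; exact (Nat.lt_pow_self (by omega)).le
  have hQ : 2 * s + 6 ≤ A.q ^ r := by
    rw [← hr]; exact (Nat.lt_pow_self (by omega)).le
  have hT : ∀ u v a b, a < A.p ^ r → b < A.q ^ r →
      A.T (A.p ^ r * u + a) (A.q ^ r * v + b) = arr A.p A.q A.M r (A.T u v) a b :=
    fun u v a b ha hb => A.self_similar r u v a b ha hb
  refine ⟨newAut A (c := c) hT (by omega) (by omega), ?_, ?_⟩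
  · ext w
    show (w ≠ [] ∧ _) ↔ (w ≠ [] ∧ _)
    refine and_congr_right fun hw => ?_
    have hl : 0 < w.length := List.length_pos_of_ne_nil hw
    rw [newAut_val A hc hP hQ hinj hT (by omega) (by omega) w (w.length - 1) 0 0 (by omega)]
    constructor
    · rintro ⟨w', hw', h1, h2⟩
      have h3 : info A (A.p ^ r) (A.q ^ r) c w 0 0 = info A (A.p ^ r) (A.q ^ r) c w' 0 0 :=
        Sum.inr_injective h2
      rw [info_eq_iff] at h3
      exact (rel_acc A hP hw hw' h3).2 h1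
    · intro h
      exact ⟨w, hw, h, rfl⟩
  · have hsub : Set.range (newAut A (c := c) hT (by omega) (by omega)).g ⊆
        {gB A (A.p ^ r) (A.q ^ r) c true, gB A (A.p ^ r) (A.q ^ r) c false} := by
      rintro _ ⟨δ, rfl⟩
      show gB A (A.p ^ r) (A.q ^ r) c (bitOf c δ.1 δ.2.1 δ.2.2) ∈ _
      cases bitOf c δ.1 δ.2.1 δ.2.2
      · right; rfl
      · left; rfl
    calc (Set.range (newAut A (c := c) hT (by omega) (by omega)).g).ncard
        ≤ ({gB A (A.p ^ r) (A.q ^ r) c true, gB A (A.p ^ r) (A.q ^ r) c false} : Set _).ncard :=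
          Set.ncard_le_ncard hsub ((Set.finite_singleton _).insert _)
      _ ≤ 2 := by
          refine (Set.ncard_insert_le _ _).trans ?_
          rw [Set.ncard_singleton]

end X249.TR
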