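import Pool.Agent.X249.TR.Code

/-!
# Two types of processors are enough
-/

namespace X249.TR

variable {S : Type} (A : Automaton S)

theorem Automaton.val_of_lt {w : List S} {i j : ℕ} (h : i + j + 1 < w.length) :
    A.val w i j = A.g (A.T i j) (some (A.val w i (j + 1))) (some (A.val w (i + 1) j)) := by
  rw [Automaton.val, if_pos h]

theorem Automaton.val_top {w : List S} {i j : ℕ} (h : i + j + 1 = w.length) :
    A.val w i j = A.g (A.T i j) none ((w[i]?).map A.emb) := by
  rw [Automaton.val, if_neg (by omega)]

/-- The value of a node is determined by the letters and the labels above it. -/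
theorem val_congr (w w' : List S) : ∀ (h i j i' j' : ℕ), i + j + h + 1 = w.length →
    i' + j' + h + 1 = w'.length → (∀ x, x ≤ h → w[i + x]? = w'[i' + x]?) →
    (∀ x y, x + y ≤ h → A.T (i + x) (j + y) = A.T (i' + x) (j' + y)) →
    A.val w i j = A.val w' i' j'
  | 0, i, j, i', j', h1, h2, hw, hT => by
    rw [A.val_top (by omega), A.val_top (by omega)]
    have e1 := hT 0 0 (by omega)
    have e2 := hw 0 (by omega)
    simp only [add_zero] at e1 e2
    rw [e1, e2]
  | h + 1, i, j, i', j', h1, h2, hw, hT => by
    rw [A.val_of_lt (by omega), A.val_of_lt (w := w') (by omega)]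
    have e1 := hT 0 0 (by omega)
    simp only [add_zero] at e1
    have e2 : A.val w i (j + 1) = A.val w' i' (j' + 1) := by
      apply val_congr w w' h i (j + 1) i' (j' + 1) (by omega) (by omega)
        (fun x hx => hw x (by omega))
      intro x y hxy
      have := hT x (y + 1) (by omega)
      rwa [show j + 1 + y = j + (y + 1) by ring, show j' + 1 + y = j' + (y + 1) by ring]
    have e3 : A.val w (i + 1) j = A.val w' (i' + 1) j' := by
      apply val_congr w w' h (i + 1) j (i' + 1) j' (by omega) (by omega)
      · intro x hx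
        have := hw (x + 1) (by omega)
        rwa [show i + 1 + x = i + (x + 1) by ring, show i' + 1 + x = i' + (x + 1) by ring]
      intro x y hxy
      have := hT (x + 1) y (by omega)
      rwa [show i + 1 + x = i + (x + 1) by ring, show i' + 1 + x = i' + (x + 1) by ring]
    rw [e1, e2, e3]

/-- The values of a block are determined by its labels and by the values on its upper boundary. -/
theorem val_block (w w' : List S) (P Q i j i' j' : ℕ) (h1 : i + j + P + Q < w.length)
    (h2 : i' + j' + P + Q < w'.length)
    (hT : ∀ x y, x < P → y < Q → A.T (i + x) (j + y) = A.T (i' + x) (j' + y))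
    (hr : ∀ y, y < Q → A.val w (i + P) (j + y) = A.val w' (i' + P) (j' + y))
    (hl : ∀ x, x < P → A.val w (i + x) (j + Q) = A.val w' (i' + x) (j' + Q)) :
    ∀ (m x y : ℕ), x ≤ P → y ≤ Q → (x < P ∨ y < Q) → (P - x) + (Q - y) ≤ m →
      A.val w (i + x) (j + y) = A.val w' (i' + x) (j' + y)
  | 0, x, y, hx, hy, hxy, hm => by omega
  | m + 1, x, y, hx, hy, hxy, hm => by
    rcases Nat.eq_or_lt_of_le hx with rfl | hx'
    · exact hr y (by omega)
    rcases Nat.eq_or_lt_of_le hy with rfl | hy'
    · exact hl x hx'
    rw [A.val_of_lt (by omega), A.val_of_lt (w := w') (by omega), hT x y hx' hy']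
    have e1 := val_block w w' P Q i j i' j' h1 h2 hT hr hl m x (y + 1) hx hy' (Or.inl hx')
      (by omega)
    have e2 := val_block w w' P Q i j i' j' h1 h2 hT hr hl m (x + 1) y hx' hy (Or.inr hy')
      (by omega)
    rw [← add_assoc, ← add_assoc] at e1 e2
    rw [e1, e2]

section Core

variable (P Q : ℕ) (c : (Fin 2 → Fin 2 → A.Δ) → ℕ)

/-- Two nodes (with input words) that look the same for the new automaton. -/
def Rel (w : List S) (i j : ℕ) (w' : List S) (i' j' : ℕ) : Prop :=
  min (w.length - (i + j + 1)) (2 * (P + Q)) = min (w'.length - (i' + j' + 1)) (2 * (P + Q)) ∧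
  (∀ x y, x + y ≤ min (w.length - (i + j + 1)) (2 * (P + Q)) →
    bit A.T P Q c (i + x) (j + y) = bit A.T P Q c (i' + x) (j' + y)) ∧
  (w.length - (i + j + 1) < 2 * (P + Q) → ∀ x, x ≤ w.length - (i + j + 1) →
    w[i + x]? = w'[i' + x]?) ∧
  (2 * (P + Q) ≤ w.length - (i + j + 1) → ∀ x, x < P →
    A.val w (i + up P i + x) (j + up Q j) = A.val w' (i' + up P i' + x) (j' + up Q j')) ∧
  (2 * (P + Q) ≤ w.length - (i + j + 1) → ∀ y, y < Q →
    A.val w (i + up P i) (j + up Q j + y) = A.val w' (i' + up P i') (j' + up Q j' + y))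

/-- the information which a node of the new automaton holds -/
abbrev Info (S Γ : Type) (P Q : ℕ) : Type :=
  Fin (2 * (P + Q) + 1) × (Fin (2 * (P + Q) + 1) → Fin (2 * (P + Q) + 1) → Bool) ×
  (Fin (2 * (P + Q) + 1) → Option S) × (Fin P → Option Γ) × (Fin Q → Option Γ)

open Classical in
/-- the information held by the node `(i, j)` for the input word `w` -/
noncomputable def info (w : List S) (i j : ℕ) : Info S A.Γ P Q :=
  (⟨min (w.length - (i + j + 1)) (2 * (P + Q)), by omega⟩,
   fun x y => if (x : ℕ) + y ≤ min (w.length - (i + j + 1)) (2 * (P + Q)) then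
      bit A.T P Q c (i + x) (j + y) else false,
   fun x => if w.length - (i + j + 1) < 2 * (P + Q) ∧ (x : ℕ) ≤ w.length - (i + j + 1) then
      w[i + (x : ℕ)]? else none,
   fun x => if 2 * (P + Q) ≤ w.length - (i + j + 1) then
      some (A.val w (i + up P i + x) (j + up Q j)) else none,
   fun y => if 2 * (P + Q) ≤ w.length - (i + j + 1) then
      some (A.val w (i + up P i) (j + up Q j + y)) else none)

theorem info_eq_iff (w : List S) (i j : ℕ) (w' : List S) (i' j' : ℕ) :
    info A P Q c w i j = info A P Q c w' i' j' ↔ Rel A P Q c w i j w' i' j' := by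
  classical
  constructor
  · intro h
    unfold info at h
    simp only [Prod.mk.injEq, Fin.mk.injEq] at h
    obtain ⟨h1, h2, h3, h4, h5⟩ := h
    refine ⟨h1, ?_, ?_, ?_, ?_⟩
    · intro x y hxy
      have := congrFun (congrFun h2 ⟨x, by omega⟩) ⟨y, by omega⟩
      simp only at this
      rw [if_pos hxy, if_pos (by omega)] at this
      exact this
    · intro hlt x hx
      have := congrFun h3 ⟨x, by omega⟩
      simp only at this
      rw [if_pos ⟨hlt, hx⟩, if_pos (by omega)] at this
      exact this
    · intro hle x hx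
      have := congrFun h4 ⟨x, hx⟩
      simp only at this
      rw [if_pos hle, if_pos (by omega)] at this
      exact Option.some.inj this
    · intro hle x hx
      have := congrFun h5 ⟨x, hx⟩
      simp only at this
      rw [if_pos hle, if_pos (by omega)] at this
      exact Option.some.inj this
  · rintro ⟨h1, h2, h3, h4, h5⟩
    unfold info
    simp only [Prod.mk.injEq, Fin.mk.injEq]
    refine ⟨h1, ?_, ?_, ?_, ?_⟩
    · funext x y
      by_cases hxy : (x : ℕ) + y ≤ min (w.length - (i + j + 1)) (2 * (P + Q))
      · rw [if_pos hxy, if_pos (by omega)]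
        exact h2 x y hxy
      · rw [if_neg hxy, if_neg (by omega)]
    · funext x
      by_cases hx : w.length - (i + j + 1) < 2 * (P + Q) ∧ (x : ℕ) ≤ w.length - (i + j + 1)
      · rw [if_pos hx, if_pos (by omega)]
        exact h3 hx.1 x hx.2
      · rw [if_neg hx, if_neg (by omega)]
    · funext x
      by_cases hx : 2 * (P + Q) ≤ w.length - (i + j + 1)
      · rw [if_pos hx, if_pos (by omega), h4 hx x x.2]
      · rw [if_neg hx, if_neg (by omega)]
    · funext x
      by_cases hx : 2 * (P + Q) ≤ w.length - (i + j + 1)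
      · rw [if_pos hx, if_pos (by omega), h5 hx x x.2]
      · rw [if_neg hx, if_neg (by omega)]

variable {P Q c} {s : ℕ} (hc : ∀ t, c t < s) (hP : 2 * s + 6 ≤ P) (hQ : 2 * s + 6 ≤ Q)
  (hinj : Function.Injective c) {R : A.Δ → ℕ → ℕ → A.Δ}
  (hT : ∀ u v a b, a < P → b < Q → A.T (P * u + a) (Q * v + b) = R (A.T u v) a b)

theorem rel_top {w : List S} {i j : ℕ} {w' : List S} {i' j' : ℕ} (h1 : i + j + 1 = w.length)
    (h2 : i' + j' + 1 = w'.length) (hb : bit A.T P Q c i j = bit A.T P Q c i' j')
    (hw : w[i]? = w'[i']?) : Rel A P Q c w i j w' i' j' := by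
  refine ⟨by omega, ?_, ?_, ?_, ?_⟩
  · intro x y hxy
    obtain ⟨rfl, rfl⟩ : x = 0 ∧ y = 0 := by omega
    simpa using hb
  · intro _ x hx
    obtain rfl : x = 0 := by omega
    simpa using hw
  · intro h; omega
  · intro h; omega

include hc hP hQ hinj hT

theorem rel_step {w : List S} {i j : ℕ} {w' : List S} {i' j' : ℕ} (h1 : i + j + 1 < w.length)
    (h2 : i' + j' + 1 < w'.length) (hb : bit A.T P Q c i j = bit A.T P Q c i' j')
    (hl : Rel A P Q c w i (j + 1) w' i' (j' + 1)) (hr : Rel A P Q c w (i + 1) j w' (i' + 1) j') :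
    Rel A P Q c w i j w' i' j' := by
  obtain ⟨l1, l2, l3, l4, l5⟩ := hl
  obtain ⟨r1, r2, r3, r4, r5⟩ := hr
  have hP0 : 0 < P := by omega
  have hQ0 : 0 < Q := by omega
  have hmin : min (w.length - (i + j + 1)) (2 * (P + Q)) =
      min (w'.length - (i' + j' + 1)) (2 * (P + Q)) := by omega
  have hbits : ∀ x y, x + y ≤ min (w.length - (i + j + 1)) (2 * (P + Q)) →
      bit A.T P Q c (i + x) (j + y) = bit A.T P Q c (i' + x) (j' + y) := by
    intro x y hxy
    rcases Nat.eq_zero_or_pos x with hx | hx
    · subst hx
      rcases Nat.eq_zero_or_pos y with hy | hy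
      · subst hy; simpa using hb
      · obtain ⟨y, rfl⟩ : ∃ z, y = z + 1 := ⟨y - 1, by omega⟩
        have := l2 0 y (by omega)
        rwa [show j + 1 + y = j + (y + 1) by ring, show j' + 1 + y = j' + (y + 1) by ring] at this
    · obtain ⟨x, rfl⟩ : ∃ z, x = z + 1 := ⟨x - 1, by omega⟩
      have := r2 x y (by omega)
      rwa [show i + 1 + x = i + (x + 1) by ring, show i' + 1 + x = i' + (x + 1) by ring] at this
  refine ⟨hmin, hbits, ?_, ?_⟩
  · intro hlt x hx
    rcases Nat.eq_zero_or_pos x with h0 | h0
    · subst h0
      exact l3 (by omega) 0 (by omega)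
    · obtain ⟨x, rfl⟩ : ∃ z, x = z + 1 := ⟨x - 1, by omega⟩
      have := r3 (by omega) x (by omega)
      rwa [show i + 1 + x = i + (x + 1) by ring, show i' + 1 + x = i' + (x + 1) by ring] at this
  -- the values
  by_cases hK : 2 * (P + Q) ≤ w.length - (i + j + 1)
  swap
  · exact ⟨fun h => absurd h hK, fun h => absurd h hK⟩
  have hK' : 2 * (P + Q) ≤ w'.length - (i' + j' + 1) := by omega
  have hW : ∀ x y, x + y ≤ 2 * (P + Q) →
      bit A.T P Q c (i + x) (j + y) = bit A.T P Q c (i' + x) (j' + y) :=
    fun x y hxy => hbits x y (by omega)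
  have hα : up P i = up P i' := up_left hc hP hQ hW (by omega)
  have hγ : up Q j = up Q j' := up_right hc hP hQ hW (by omega)
  have hαP : up P i < P := (up_spec hP0 i).1
  have hγQ : up Q j < Q := (up_spec hQ0 j).1
  obtain ⟨U, hU⟩ := (up_spec hP0 i).2
  obtain ⟨V, hV⟩ := (up_spec hQ0 j).2
  obtain ⟨U', hU'⟩ := (up_spec hP0 i').2
  obtain ⟨V', hV'⟩ := (up_spec hQ0 j').2
  rw [← hα] at hU'
  rw [← hγ] at hV'
  have hdec : ∀ a b, up P i + a + up Q j + b ≤ 2 * (P + Q) →
      A.T (i + up P i + a) (j + up Q j + b) = A.T (i' + up P i + a) (j' + up Q j + b) := by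
    intro a b hab
    rw [hU, hV, hU', hV']
    exact decode hc hP hQ hW hinj hT hαP hγQ le_rfl hU hU' hV hV' a b hab
  by_cases hK2 : w.length - (i + j + 1) = 2 * (P + Q)
  · -- the first values
    have hK2' : w'.length - (i' + j' + 1) = 2 * (P + Q) := by omega
    have hlet : ∀ x, x ≤ 2 * (P + Q) → w[i + x]? = w'[i' + x]? := by
      intro x hx
      rcases Nat.eq_zero_or_pos x with h0 | h0
      · subst h0
        exact l3 (by omega) 0 (by omega)
      · obtain ⟨x, rfl⟩ : ∃ z, x = z + 1 := ⟨x - 1, by omega⟩
        have := r3 (by omega) x (by omega)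
        rwa [show i + 1 + x = i + (x + 1) by ring,
          show i' + 1 + x = i' + (x + 1) by ring] at this
    have hval : ∀ a b, up P i + a + up Q j + b ≤ 2 * (P + Q) →
        A.val w (i + up P i + a) (j + up Q j + b) =
          A.val w' (i' + up P i + a) (j' + up Q j + b) := by
      intro a b hab
      apply val_congr A w w' (2 * (P + Q) - (up P i + a + up Q j + b)) _ _ _ _ (by omega)
        (by omega)
      · intro x hx
        have := hlet (up P i + a + x) (by omega)
        rwa [← add_assoc, ← add_assoc, ← add_assoc, ← add_assoc] at this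
      · intro x y hxy
        have := hdec (a + x) (b + y) (by omega)
        rwa [← add_assoc, ← add_assoc, ← add_assoc, ← add_assoc] at this
    rw [← hα, ← hγ]
    refine ⟨fun _ x hx => ?_, fun _ y hy => ?_⟩
    · have := hval x 0 (by omega)
      simpa using this
    · have := hval 0 y (by omega)
      simpa using this
  · by_cases hi : P ∣ i
    · have hi' : P ∣ i' := by
        have h0 : up P i' = 0 := by rw [← hα]; exact up_zero hP0 hi
        have := (up_spec hP0 i').2
        rwa [h0, add_zero] at this
      by_cases hj : Q ∣ j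
      · have hj' : Q ∣ j' := by
          have h0 : up Q j' = 0 := by rw [← hγ]; exact up_zero hQ0 hj
          have := (up_spec hQ0 j').2
          rwa [h0, add_zero] at this
        have a1 := up_zero hP0 hi
        have a2 := up_zero hP0 hi'
        have a3 := up_zero hQ0 hj
        have a4 := up_zero hQ0 hj'
        have hTb : ∀ x y, x < P → y < Q → A.T (i + x) (j + y) = A.T (i' + x) (j' + y) := by
          intro x y hx hy
          have := hdec x y (by omega)
          rwa [a1, a3, add_zero, add_zero, add_zero, add_zero] at this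
        have hr' : ∀ y, y < Q → A.val w (i + P) (j + y) = A.val w' (i' + P) (j' + y) := by
          intro y hy
          have := r5 (by omega) y hy
          rw [up_succ' hP0 hi, up_succ' hP0 hi', a3, a4] at this
          simpa using this
        have hl' : ∀ x, x < P → A.val w (i + x) (j + Q) = A.val w' (i' + x) (j' + Q) := by
          intro x hx
          have := l4 (by omega) x hx
          rw [up_succ' hQ0 hj, up_succ' hQ0 hj', a1, a2] at this
          simpa using this
        have hblock := val_block A w w' P Q i j i' j' (by omega) (by omega) hTb hr' hl' (P + Q)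
        rw [a1, a2, a3, a4]
        refine ⟨fun _ x hx => ?_, fun _ y hy => ?_⟩
        · have := hblock x 0 (by omega) (by omega) (by omega) (by omega)
          simpa using this
        · have := hblock 0 y (by omega) (by omega) (by omega) (by omega)
          simpa using this
      · have hj' : ¬ Q ∣ j' := by
          intro h
          have h0 : up Q j = 0 := by rw [hγ]; exact up_zero hQ0 h
          have := (up_spec hQ0 j).2
          rw [h0, add_zero] at this
          exact hj this
        have l4' := l4 (by omega)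
        have l5' := l5 (by omega)
        rw [up_succ hQ0 hj, up_succ hQ0 hj'] at l4' l5'
        exact ⟨fun _ => l4', fun _ => l5'⟩
    · have hi' : ¬ P ∣ i' := by
        intro h
        have h0 : up P i = 0 := by rw [hα]; exact up_zero hP0 h
        have := (up_spec hP0 i).2
        rw [h0, add_zero] at this
        exact hi this
      have r4' := r4 (by omega)
      have r5' := r5 (by omega)
      rw [up_succ hP0 hi, up_succ hP0 hi'] at r4' r5'
      exact ⟨fun _ => r4', fun _ => r5'⟩

omit hc hQ hinj hT in
theorem rel_acc {w w' : List S} (hw : w ≠ []) (hw' : w' ≠ []) (h : Rel A P Q c w 0 0 w' 0 0) :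
    A.val w 0 0 ∈ A.acc ↔ A.val w' 0 0 ∈ A.acc := by
  obtain ⟨h1, h2, h3, h4, h5⟩ := h
  have l1 : 0 < w.length := List.length_pos_of_ne_nil hw
  have l2 : 0 < w'.length := List.length_pos_of_ne_nil hw'
  by_cases hK : 2 * (P + Q) ≤ w.length - (0 + 0 + 1)
  · have e := h4 hK 0 (by omega)
    have a1 : up P 0 = 0 := up_zero (by omega) (dvd_zero P)
    by_cases hQ0 : 0 < Q
    · have a2 : up Q 0 = 0 := up_zero hQ0 (dvd_zero Q)
      rw [a1, a2] at e
      simp only [add_zero] at e
      rw [e]
    · have a2 : up Q 0 = 0 := by unfold up; rw [dif_neg hQ0]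
      rw [a1, a2] at e
      simp only [add_zero] at e
      rw [e]
  · have hlen : w.length = w'.length := by omega
    have e : w = w' := by
      apply List.ext_getElem?
      intro n
      by_cases hn : n ≤ w.length - (0 + 0 + 1)
      · have := h3 (by omega) n hn
        simpa using this
      · rw [List.getElem?_eq_none (by omega), List.getElem?_eq_none (by omega)]
    rw [e]

end Core

end X249.TR
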